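import Pool.Agent.Q105.FJ.Wreath

/-!
# Extensions whose kernel is the value of a functor on sets and injections
-/

set_option autoImplicit false
set_option linter.unusedSectionVars false
set_option linter.style.haveILetI false

namespace Pool.Agent.Q152.FI

open Pool.Agent.Y462.SS Pool.Agent.Q152.WP Pool.Agent.Q105.FJ

variable {C : ∀ (G : Type) [Group G], Prop}

/-- the inclusion of a finite subset -/
abbrev emb {X : Type} (S : Finset X) : S ↪ X := Function.Embedding.subtype _

/-- the inclusion of a finite subset in another one -/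
abbrev incl {X : Type} {S T : Finset X} (h : S ⊆ T) : S ↪ T :=
  Subtype.impEmbedding _ _ (fun _ hx => h hx)

/-- An FI-group: a functor from the category of sets and injections to the category of groups which
commutes with unions of directed families. -/
structure FIGroup where
  /-- the value on a set -/
  obj : Type → Type
  /-- the group structure -/
  grp : ∀ X, Group (obj X)
  /-- the value on an injection -/
  map : ∀ {X Y : Type}, (X ↪ Y) → (obj X →* obj Y)
  map_id : ∀ (X : Type) (x : obj X), map (Function.Embedding.refl X) x = x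
  map_comp : ∀ {X Y Z : Type} (f : X ↪ Y) (g : Y ↪ Z) (x : obj X),
    map g (map f x) = map (f.trans g) x
  gen : ∀ (X : Type) (x : obj X), ∃ S : Finset X, ∃ y : obj S, map (emb S) y = x
  ker : ∀ (X : Type) (S : Finset X) (y : obj S), map (emb S) y = 1 →
    ∃ (T : Finset X) (h : S ⊆ T), map (incl h) y = 1

attribute [instance] FIGroup.grp

namespace FIGroup

variable (Φ : FIGroup) {X : Type}

/-- the permutations of `X` act on `Φ(X)` -/
def aut (X : Type) : Equiv.Perm X →* MulAut (Φ.obj X) where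
  toFun σ :=
    { toFun := Φ.map σ.toEmbedding
      invFun := Φ.map σ.symm.toEmbedding
      left_inv := fun x => by
        rw [Φ.map_comp]
        have : σ.toEmbedding.trans σ.symm.toEmbedding = Function.Embedding.refl X := by
          ext y
          simp
        rw [this, Φ.map_id]
      right_inv := fun x => by
        rw [Φ.map_comp]
        have : σ.symm.toEmbedding.trans σ.toEmbedding = Function.Embedding.refl X := by
          ext y
          simp
        rw [this, Φ.map_id]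
      map_mul' := fun x y => map_mul _ x y }
  map_one' := by
    ext x
    exact Φ.map_id X x
  map_mul' σ τ := by
    ext x
    exact (Φ.map_comp τ.toEmbedding σ.toEmbedding x).symm

theorem aut_apply (σ : Equiv.Perm X) (x : Φ.obj X) : Φ.aut X σ x = Φ.map σ.toEmbedding x := rfl

/-- the values on finite sets -/
theorem fin_mem (hC : Closed C) (hΦ : ∀ n : ℕ, C (Φ.obj (Fin n))) (Y : Type) [Finite Y] :
    C (Φ.obj Y) := by
  obtain ⟨n, ⟨e⟩⟩ := Finite.exists_equiv_fin Y
  refine hC.of_injective _ _ (Φ.map e.toEmbedding) ?_ (hΦ n)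
  have : Function.LeftInverse (Φ.map e.symm.toEmbedding) (Φ.map e.toEmbedding) := by
    intro x
    rw [Φ.map_comp]
    have : e.toEmbedding.trans e.symm.toEmbedding = Function.Embedding.refl Y := by
      ext y
      simp
    rw [this, Φ.map_id]
  exact this.injective

/-- the values on all sets -/
theorem mem (hC : Closed C) (hΦ : ∀ n : ℕ, C (Φ.obj (Fin n))) (X : Type) :
    C (Φ.obj X) := by
  classical
  refine hC.colim (Finset X) ?_ (fun S => Φ.obj S) (fun i j hij => Φ.map (incl hij)) (Φ.obj X)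
    (fun S => Φ.map (emb S)) ?_ ?_ ?_ ?_ ?_ ?_
  · intro S T
    exact ⟨S ∪ T, Finset.subset_union_left, Finset.subset_union_right⟩
  · intro S h x
    exact Φ.map_id _ x
  · intro S T U h h' x
    exact Φ.map_comp _ _ x
  · intro S T h x
    exact Φ.map_comp _ _ x
  · intro x
    obtain ⟨S, y, hy⟩ := Φ.gen X x
    exact ⟨S, y, hy⟩
  · intro S y hy
    exact Φ.ker X S y hy
  · intro S
    exact Φ.fin_mem hC hΦ S

/-- the elements of `S` which are mapped to `S` -/
noncomputable def cap (ρ : Equiv.Perm X) (S : Finset X) : Finset X := by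
  classical
  exact S.filter (fun v => ρ v ∈ S)

theorem mem_cap (ρ : Equiv.Perm X) (S : Finset X) (v : X) : v ∈ cap ρ S ↔ v ∈ S ∧ ρ v ∈ S := by
  classical
  unfold cap
  rw [Finset.mem_filter]

/-- a partial injection of a finite set extends to a permutation of finite order -/
theorem exists_perm (ρ : Equiv.Perm X) (S : Finset X) :
    ∃ π : Equiv.Perm X, IsOfFinOrder π ∧ ∀ v ∈ cap ρ S, π v = ρ v := by
  classical
  let e : {x : S // ρ x.1 ∈ S} ≃ {x : S // ρ.symm x.1 ∈ S} :=
    { toFun := fun x => ⟨⟨ρ x.1.1, x.2⟩, by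
        change ρ.symm (ρ x.1.1) ∈ S
        rw [Equiv.symm_apply_apply]
        exact x.1.2⟩
      invFun := fun x => ⟨⟨ρ.symm x.1.1, x.2⟩, by
        change ρ (ρ.symm x.1.1) ∈ S
        rw [Equiv.apply_symm_apply]
        exact x.1.2⟩
      left_inv := fun x => by
        apply Subtype.ext
        apply Subtype.ext
        exact Equiv.symm_apply_apply _ _
      right_inv := fun x => by
        apply Subtype.ext
        apply Subtype.ext
        exact Equiv.apply_symm_apply _ _ }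
  let π₀ : Equiv.Perm S := e.extendSubtype
  refine ⟨Equiv.Perm.ofSubtype π₀, ?_, ?_⟩
  · exact (Equiv.Perm.ofSubtype : Equiv.Perm S →* Equiv.Perm X).isOfFinOrder
      (isOfFinOrder_of_finite π₀)
  · intro v hv
    rw [mem_cap] at hv
    rw [Equiv.Perm.ofSubtype_apply_of_mem _ hv.1]
    have := e.extendSubtype_apply_of_mem ⟨v, hv.1⟩ hv.2
    exact congrArg Subtype.val this

variable {G Q : Type} [Group G] [Group Q]

/-- the pairs of subgroups -/
noncomputable def pr (ι : Φ.obj X →* G) (g : G) (ρ : Equiv.Perm X)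
    (hg : ∀ x, g * ι x * g⁻¹ = ι (Φ.map ρ.toEmbedding x)) (S : Finset X) : Pair g where
  A := (ι.comp (Φ.map (emb (cap ρ S)))).range
  F := (ι.comp (Φ.map (emb S))).range
  hA := by
    rintro _ ⟨x, rfl⟩
    refine ⟨Φ.map (incl (fun v hv => ((mem_cap ρ S v).1 hv).1)) x, ?_⟩
    change ι (Φ.map _ (Φ.map _ x)) = ι (Φ.map _ x)
    rw [Φ.map_comp]
    rfl
  hB := by
    rintro _ ⟨x, rfl⟩
    let j : cap ρ S ↪ S := ⟨fun v => ⟨ρ v.1, ((mem_cap ρ S v.1).1 v.2).2⟩, by
      intro v w h
      exact Subtype.ext (ρ.injective (congrArg Subtype.val h))⟩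
    refine ⟨Φ.map j x, ?_⟩
    change ι (Φ.map _ (Φ.map _ x)) = g * ι (Φ.map _ x) * g⁻¹
    rw [hg, Φ.map_comp, Φ.map_comp]
    rfl

variable {Φ} {ι : Φ.obj X →* G} {g : G} {ρ : Equiv.Perm X}
  (hg : ∀ x, g * ι x * g⁻¹ = ι (Φ.map ρ.toEmbedding x))

theorem pr_mono {S T : Finset X} (h : S ⊆ T) : Φ.pr ι g ρ hg S ≤ Φ.pr ι g ρ hg T := by
  constructor
  · rintro _ ⟨x, rfl⟩
    have hm : cap ρ S ⊆ cap ρ T := by
      intro v hv
      rw [mem_cap] at hv ⊢
      exact ⟨h hv.1, h hv.2⟩
    refine ⟨Φ.map (incl hm) x, ?_⟩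
    change ι (Φ.map _ (Φ.map _ x)) = ι (Φ.map _ x)
    rw [Φ.map_comp]
    rfl
  · rintro _ ⟨x, rfl⟩
    refine ⟨Φ.map (incl h) x, ?_⟩
    change ι (Φ.map _ (Φ.map _ x)) = ι (Φ.map _ x)
    rw [Φ.map_comp]
    rfl

theorem pr_dir : Dir ι.range (Set.range (Φ.pr ι g ρ hg)) := by
  classical
  refine ⟨⟨_, ⟨∅, rfl⟩⟩, ?_, ?_, ?_⟩
  · rintro _ ⟨S, rfl⟩ _ ⟨x, rfl⟩
    exact ⟨_, rfl⟩
  · rintro _ ⟨S, rfl⟩ _ ⟨T, rfl⟩
    exact ⟨_, ⟨S ∪ T, rfl⟩, pr_mono hg Finset.subset_union_left,
      pr_mono hg Finset.subset_union_right⟩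
  · rintro _ ⟨x, rfl⟩
    obtain ⟨S, y, rfl⟩ := Φ.gen X x
    let T : Finset X := S ∪ S.image ρ
    have hT : S ⊆ cap ρ T := by
      intro v hv
      rw [mem_cap]
      exact ⟨Finset.mem_union_left _ hv,
        Finset.mem_union_right _ (Finset.mem_image_of_mem _ hv)⟩
    refine ⟨_, ⟨T, rfl⟩, Φ.map (incl hT) y, ?_⟩
    change ι (Φ.map _ (Φ.map _ y)) = ι (Φ.map _ y)
    rw [Φ.map_comp]
    rfl

/-- the partial automorphisms extend -/
theorem pr_ext (hC : Closed C) (hΦ : ∀ n : ℕ, C (Φ.obj (Fin n))) (hι : Function.Injective ι)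
    (S : Finset X) : Ext C (Φ.pr ι g ρ hg S) := by
  obtain ⟨π, hπ, hπρ⟩ := exists_perm ρ S
  haveI : Finite (Subgroup.zpowers π) := finite_zpowers.2 hπ
  let π' : Subgroup.zpowers π := ⟨π, Subgroup.mem_zpowers π⟩
  let N : Subgroup (Φ.obj X) := (Φ.map (emb S)).range
  let j : cap ρ S ↪ S := ⟨fun v => ⟨ρ v.1, ((mem_cap ρ S v.1).1 v.2).2⟩, by
    intro v w h
    exact Subtype.ext (ρ.injective (congrArg Subtype.val h))⟩
  let i : cap ρ S ↪ S := incl (fun v hv => ((mem_cap ρ S v).1 hv).1)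
  let α : Φ.obj (cap ρ S) →* N := (Φ.map (emb S)).rangeRestrict.comp (Φ.map i)
  let β : Φ.obj (cap ρ S) →* N := (Φ.map (emb S)).rangeRestrict.comp (Φ.map j)
  have hα : ∀ a, ((α a : N) : Φ.obj X) = Φ.map (emb (cap ρ S)) a := fun a =>
    Φ.map_comp i (emb S) a
  have hβ : ∀ a, ((β a : N) : Φ.obj X) = Φ.map ρ.toEmbedding (Φ.map (emb (cap ρ S)) a) := by
    intro a
    have h1 : ((β a : N) : Φ.obj X) = Φ.map (j.trans (emb S)) a := Φ.map_comp j (emb S) a
    rw [h1, Φ.map_comp]
    rfl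
  refine Ext.of_inj (Φ.pr ι g ρ hg S)
    (Q := Φ.obj X ⋊[(Φ.aut X).comp (Subgroup.zpowers π).subtype] Subgroup.zpowers π)
    (ι.comp N.subtype) (hι.comp N.subtype_injective) ?_ α β ?_ ?_
    ((SemidirectProduct.inl : Φ.obj X →* _).comp N.subtype)
    (SemidirectProduct.inl_injective.comp N.subtype_injective)
    (SemidirectProduct.inr π') ?_ (semi_fin hC (Φ.mem hC hΦ X))
  · ext y
    constructor
    · rintro ⟨⟨_, ⟨x, rfl⟩⟩, rfl⟩
      exact ⟨x, rfl⟩
    · rintro ⟨x, rfl⟩
      exact ⟨⟨_, ⟨x, rfl⟩⟩, rfl⟩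
  · rintro _ ⟨x, rfl⟩
    refine ⟨x, ?_⟩
    change ι ((α x : N) : Φ.obj X) = ι (Φ.map _ x)
    rw [hα]
  · intro x
    change ι ((β x : N) : Φ.obj X) = g * ι ((α x : N) : Φ.obj X) * g⁻¹
    rw [hg, hα, hβ]
  · intro x
    change SemidirectProduct.inr π' * SemidirectProduct.inl ((α x : N) : Φ.obj X) =
      SemidirectProduct.inl ((β x : N) : Φ.obj X) * SemidirectProduct.inr π'
    rw [hα, hβ]
    have h1 : Φ.map ρ.toEmbedding (Φ.map (emb (cap ρ S)) x) =
        Φ.aut X π (Φ.map (emb (cap ρ S)) x) := by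
      rw [aut_apply, Φ.map_comp, Φ.map_comp]
      congr 1
      congr 1
      ext v
      exact (hπρ v.1 v.2).symm
    rw [h1]
    have h2 := SemidirectProduct.inl_aut (φ := (Φ.aut X).comp (Subgroup.zpowers π).subtype) π'
      (Φ.map (emb (cap ρ S)) x)
    have h3 : ((Φ.aut X).comp (Subgroup.zpowers π).subtype) π' (Φ.map (emb (cap ρ S)) x) =
      Φ.aut X π (Φ.map (emb (cap ρ S)) x) := rfl
    rw [← h3, h2, map_inv, inv_mul_cancel_right]

/-- **Extensions whose kernel is the value of an FI-group.** -/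
theorem kernel (hC : Closed C) (hE : ExtClosed C) (hΦ : ∀ n : ℕ, C (Φ.obj (Fin n)))
    (f : G →* Q) (hf : Function.Surjective f) (hQ : C Q) (hι : Function.Injective ι)
    (hr : ι.range = f.ker)
    (h : ∀ q : Q, ¬ IsOfFinOrder q → ∃ g : G, f g = q ∧ ∃ ρ : Equiv.Perm X,
      ∀ x, g * ι x * g⁻¹ = ι (Φ.map ρ.toEmbedding x)) : C G := by
  refine dir_kernel hC hE f hf hQ ?_ ?_
  · rw [← hr]
    exact hC.of_injective _ _ (MonoidHom.ofInjective hι).symm.toMonoidHom
      (MonoidHom.ofInjective hι).symm.injective (Φ.mem hC hΦ X)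
  · intro q hq
    obtain ⟨g, hg, ρ, hρ⟩ := h q hq
    refine ⟨g, hg, Set.range (Φ.pr ι g ρ hρ), ?_, ?_⟩
    · rw [← hr]
      exact pr_dir hρ
    · rintro _ ⟨S, rfl⟩
      exact pr_ext hρ hC hΦ hι S

/-- **Semidirect products.** -/
theorem semidirect (hC : Closed C) (hE : ExtClosed C) (Φ : FIGroup)
    (hΦ : ∀ n : ℕ, C (Φ.obj (Fin n))) (X H : Type) [Group H] [MulAction H X] (hH : C H) :
    C (Φ.obj X ⋊[(Φ.aut X).comp (MulAction.toPermHom H X)] H) := by
  refine kernel (Φ := Φ) (X := X) hC hE hΦ SemidirectProduct.rightHom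
    SemidirectProduct.rightHom_surjective hH
    (ι := SemidirectProduct.inl) SemidirectProduct.inl_injective
    (SemidirectProduct.range_inl_eq_ker_rightHom) ?_
  intro q _
  refine ⟨SemidirectProduct.inr q, SemidirectProduct.rightHom_inr _, MulAction.toPerm q, ?_⟩
  intro x
  have h2 := SemidirectProduct.inl_aut (φ := (Φ.aut X).comp (MulAction.toPermHom H X)) q x
  rw [map_inv] at h2
  exact h2.symm

end FIGroup

end Pool.Agent.Q152.FI
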