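import Pool.Agent.Q152.FI.Basic
import Pool.Agent.Q152.EM.Unr

/-!
# Extensions whose kernel is the value of an FI-group, with a local condition on the action
-/

set_option autoImplicit false
set_option linter.unusedSectionVars false
set_option linter.style.haveILetI false

namespace Pool.Agent.Q152.FI

open Pool.Agent.Y462.SS Pool.Agent.Q152.WP Pool.Agent.Q105.FJ

variable {C : ∀ (G : Type) [Group G], Prop}

namespace FIGroup

variable {Φ : FIGroup} {X : Type}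

/-- an injection of a finite set in a finite set extends to a permutation of finite order -/
theorem exists_perm2 (S : Finset X) (j : S ↪ X) :
    ∃ π : Equiv.Perm X, IsOfFinOrder π ∧ ∀ v : S, π v.1 = j v := by
  classical
  let T : Finset X := S ∪ Finset.univ.image j
  have hS : ∀ v : S, v.1 ∈ T := fun v => Finset.mem_union_left _ v.2
  have hj : ∀ v : S, j v ∈ T := fun v =>
    Finset.mem_union_right _ (Finset.mem_image_of_mem _ (Finset.mem_univ v))
  let e : {x : T // x.1 ∈ S} ≃ {x : T // ∃ v : S, j v = x.1} :=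
    Equiv.ofBijective (fun x => ⟨⟨j ⟨x.1.1, x.2⟩, hj _⟩, ⟨⟨x.1.1, x.2⟩, rfl⟩⟩) (by
      constructor
      · intro a b hab
        have h1 := j.injective (congrArg (fun z : {x : T // ∃ v : S, j v = x.1} => z.1.1) hab)
        apply Subtype.ext
        apply Subtype.ext
        exact congrArg (fun z : S => z.1) h1
      · rintro ⟨⟨x, hx⟩, v, hv⟩
        refine ⟨⟨⟨v.1, hS v⟩, v.2⟩, ?_⟩
        apply Subtype.ext
        apply Subtype.ext
        exact hv)
  let π₀ : Equiv.Perm T := e.extendSubtype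
  refine ⟨Equiv.Perm.ofSubtype π₀, ?_, ?_⟩
  · exact (Equiv.Perm.ofSubtype : Equiv.Perm T →* Equiv.Perm X).isOfFinOrder
      (isOfFinOrder_of_finite π₀)
  · intro v
    rw [Equiv.Perm.ofSubtype_apply_of_mem _ (hS v)]
    have := e.extendSubtype_apply_of_mem ⟨v.1, hS v⟩ v.2
    exact congrArg Subtype.val this

variable {G Q : Type} [Group G] [Group Q]

/-- `g` acts on the image of `Φ(S)` as an injection of `S` followed by an inner automorphism. -/
def LocAct (ι : Φ.obj X →* G) (g : G) : Prop :=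
  ∀ S : Finset X, ∃ (y : Φ.obj X) (j : S ↪ X), ∀ a : Φ.obj S,
    g * ι (Φ.map (emb S) a) * g⁻¹ = ι (y * Φ.map j a * y⁻¹)

/-- the data of a pair -/
structure Dat (ι : Φ.obj X →* G) (g : G) where
  S₀ : Finset X
  S : Finset X
  h : S₀ ⊆ S
  y : Φ.obj X
  hy : y ∈ (Φ.map (emb S)).range
  j : S₀ ↪ X
  hj : ∀ v, j v ∈ S
  hc : ∀ a : Φ.obj S₀, g * ι (Φ.map (emb S₀) a) * g⁻¹ = ι (y * Φ.map j a * y⁻¹)

theorem range_mono {S T : Finset X} (h : S ⊆ T) :
    (Φ.map (emb S)).range ≤ (Φ.map (emb T)).range := by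
  rintro _ ⟨x, rfl⟩
  exact ⟨Φ.map (incl h) x, Φ.map_comp _ _ _⟩

/-- the pair -/
def Dat.pr {ι : Φ.obj X →* G} {g : G} (d : Dat ι g) : Pair g where
  A := (ι.comp (Φ.map (emb d.S₀))).range
  F := (ι.comp (Φ.map (emb d.S))).range
  hA := by
    rintro _ ⟨x, rfl⟩
    exact ⟨Φ.map (incl d.h) x, congrArg ι (Φ.map_comp _ _ _)⟩
  hB := by
    rintro _ ⟨x, rfl⟩
    obtain ⟨y', hy'⟩ := d.hy
    let j' : d.S₀ ↪ d.S := ⟨fun v => ⟨d.j v, d.hj v⟩, by
      intro v w h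
      exact d.j.injective (congrArg Subtype.val h)⟩
    refine ⟨y' * Φ.map j' x * y'⁻¹, ?_⟩
    change ι (Φ.map (emb d.S) (y' * Φ.map j' x * y'⁻¹)) = g * ι (Φ.map (emb d.S₀) x) * g⁻¹
    have e1 : Φ.map (emb d.S) (y' * Φ.map j' x * y'⁻¹) = d.y * Φ.map d.j x * d.y⁻¹ := by
      rw [map_mul (Φ.map (emb d.S)), map_mul (Φ.map (emb d.S)), map_inv (Φ.map (emb d.S)), hy',
        Φ.map_comp]
      rfl
    rw [d.hc, e1]

theorem Dat.le {ι : Φ.obj X →* G} {g : G} (d e : Dat ι g) (h₀ : d.S₀ ⊆ e.S₀) (h : d.S ⊆ e.S) :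
    d.pr ≤ e.pr := by
  refine ⟨?_, ?_⟩
  · rintro _ ⟨x, rfl⟩
    exact ⟨Φ.map (incl h₀) x, congrArg ι (Φ.map_comp _ _ _)⟩
  · rintro _ ⟨x, rfl⟩
    exact ⟨Φ.map (incl h) x, congrArg ι (Φ.map_comp _ _ _)⟩

theorem exists_dat {ι : Φ.obj X →* G} {g : G} (hg : LocAct ι g) (S₀ T : Finset X) :
    ∃ d : Dat ι g, d.S₀ = S₀ ∧ T ⊆ d.S := by
  classical
  obtain ⟨y, j, hc⟩ := hg S₀
  obtain ⟨R, z, hz⟩ := Φ.gen X y
  let S : Finset X := S₀ ∪ (T ∪ (R ∪ Finset.univ.image j))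
  have h1 : S₀ ⊆ S := Finset.subset_union_left
  have h2 : T ⊆ S := Finset.subset_union_left.trans Finset.subset_union_right
  have h3 : R ∪ Finset.univ.image j ⊆ S :=
    Finset.subset_union_right.trans Finset.subset_union_right
  refine ⟨⟨S₀, S, h1, y, ?_, j, ?_, hc⟩, rfl, h2⟩
  · exact range_mono (Finset.subset_union_left.trans h3) ⟨z, hz⟩
  · intro v
    exact h3 (Finset.mem_union_right _ (Finset.mem_image_of_mem _ (Finset.mem_univ v)))

theorem dat_dir {ι : Φ.obj X →* G} {g : G} (hg : LocAct ι g) :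
    Dir ι.range (Set.range (Dat.pr : Dat ι g → Pair g)) := by
  classical
  refine ⟨?_, ?_, ?_, ?_⟩
  · obtain ⟨d, _, _⟩ := exists_dat hg ∅ ∅
    exact ⟨_, ⟨d, rfl⟩⟩
  · rintro _ ⟨d, rfl⟩ _ ⟨x, rfl⟩
    exact ⟨_, rfl⟩
  · rintro _ ⟨d, rfl⟩ _ ⟨e, rfl⟩
    obtain ⟨r, hr, hr'⟩ := exists_dat hg (d.S₀ ∪ e.S₀) (d.S ∪ e.S)
    refine ⟨_, ⟨r, rfl⟩, d.le r ?_ ?_, e.le r ?_ ?_⟩
    · rw [hr]
      exact Finset.subset_union_left
    · exact Finset.subset_union_left.trans hr'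
    · rw [hr]
      exact Finset.subset_union_right
    · exact Finset.subset_union_right.trans hr'
  · rintro _ ⟨x, rfl⟩
    obtain ⟨S, y, rfl⟩ := Φ.gen X x
    obtain ⟨d, rfl, _⟩ := exists_dat hg S ∅
    exact ⟨_, ⟨d, rfl⟩, y, rfl⟩

theorem dat_ext {ι : Φ.obj X →* G} {g : G} (hC : Closed C) (hΦ : ∀ n : ℕ, C (Φ.obj (Fin n)))
    (hι : Function.Injective ι) (d : Dat ι g) : Ext C d.pr := by
  obtain ⟨π, hπ, hπj⟩ := exists_perm2 d.S₀ d.j
  haveI : Finite (Subgroup.zpowers π) := finite_zpowers.2 hπ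
  let π' : Subgroup.zpowers π := ⟨π, Subgroup.mem_zpowers π⟩
  let N : Subgroup (Φ.obj X) := (Φ.map (emb d.S)).range
  let j' : d.S₀ ↪ d.S := ⟨fun v => ⟨d.j v, d.hj v⟩, by
    intro v w h
    exact d.j.injective (congrArg Subtype.val h)⟩
  let α : Φ.obj d.S₀ →* N := (Φ.map (emb d.S)).rangeRestrict.comp (Φ.map (incl d.h))
  let β : Φ.obj d.S₀ →* N :=
    (MulAut.conj (⟨d.y, d.hy⟩ : N)).toMonoidHom.comp
      ((Φ.map (emb d.S)).rangeRestrict.comp (Φ.map j'))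
  have hα : ∀ a, ((α a : N) : Φ.obj X) = Φ.map (emb d.S₀) a := fun a =>
    Φ.map_comp (incl d.h) (emb d.S) a
  have hβ : ∀ a, ((β a : N) : Φ.obj X) = d.y * Φ.map d.j a * d.y⁻¹ := by
    intro a
    change d.y * Φ.map (emb d.S) (Φ.map j' a) * d.y⁻¹ = _
    rw [Φ.map_comp]
    rfl
  refine Ext.of_inj d.pr
    (Q := Φ.obj X ⋊[(Φ.aut X).comp (Subgroup.zpowers π).subtype] Subgroup.zpowers π)
    (ι.comp N.subtype) (hι.comp N.subtype_injective) ?_ α β ?_ ?_
    ((SemidirectProduct.inl : Φ.obj X →* _).comp N.subtype)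
    (SemidirectProduct.inl_injective.comp N.subtype_injective)
    (SemidirectProduct.inl d.y * SemidirectProduct.inr π') ?_ (semi_fin hC (Φ.mem hC hΦ X))
  · ext y
    constructor
    · rintro ⟨⟨_, ⟨x, rfl⟩⟩, rfl⟩
      exact ⟨x, rfl⟩
    · rintro ⟨x, rfl⟩
      exact ⟨⟨_, ⟨x, rfl⟩⟩, rfl⟩
  · rintro _ ⟨x, rfl⟩
    refine ⟨x, ?_⟩
    change ι ((α x : N) : Φ.obj X) = ι (Φ.map _ x)
    rw [hα]
  · intro x
    change ι ((β x : N) : Φ.obj X) = g * ι ((α x : N) : Φ.obj X) * g⁻¹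
    rw [hα, hβ, d.hc]
  · intro x
    change SemidirectProduct.inl d.y * SemidirectProduct.inr π' *
      SemidirectProduct.inl ((α x : N) : Φ.obj X) =
      SemidirectProduct.inl ((β x : N) : Φ.obj X) *
        (SemidirectProduct.inl d.y * SemidirectProduct.inr π')
    rw [hα, hβ]
    have h1 : Φ.map d.j x = Φ.aut X π (Φ.map (emb d.S₀) x) := by
      rw [aut_apply, Φ.map_comp]
      congr 1
      congr 1
      ext v
      exact (hπj v).symm
    rw [h1]
    have h2 := SemidirectProduct.inl_aut (φ := (Φ.aut X).comp (Subgroup.zpowers π).subtype) π'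
      (Φ.map (emb d.S₀) x)
    have h3 : ((Φ.aut X).comp (Subgroup.zpowers π).subtype) π' (Φ.map (emb d.S₀) x) =
      Φ.aut X π (Φ.map (emb d.S₀) x) := rfl
    rw [h3, map_inv] at h2
    rw [map_mul, map_mul, map_inv, h2]
    group

/-- **Extensions whose kernel is the value of an FI-group: local actions.** -/
theorem kernel_local {ι : Φ.obj X →* G} (hC : Closed C) (hE : ExtClosed C)
    (hΦ : ∀ n : ℕ, C (Φ.obj (Fin n))) (f : G →* Q) (hf : Function.Surjective f) (hQ : C Q)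
    (hι : Function.Injective ι) (hr : ι.range = f.ker)
    (h : ∀ q : Q, ¬ IsOfFinOrder q → ∃ g : G, f g = q ∧ LocAct ι g) : C G := by
  refine dir_kernel hC hE f hf hQ ?_ ?_
  · rw [← hr]
    exact hC.of_injective _ _ (MonoidHom.ofInjective hι).symm.toMonoidHom
      (MonoidHom.ofInjective hι).symm.injective (Φ.mem hC hΦ X)
  · intro q hq
    obtain ⟨g, hg, hloc⟩ := h q hq
    refine ⟨g, hg, Set.range (Dat.pr : Dat ι g → Pair g), ?_, ?_⟩
    · rw [← hr]
      exact dat_dir hloc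
    · rintro _ ⟨d, rfl⟩
      exact dat_ext hC hΦ hι d

end FIGroup

end Pool.Agent.Q152.FI
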