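import Pool.Agent.Q152.FI.Basic

/-!
# Verbal powers form an FI-group
-/

set_option autoImplicit false
set_option linter.unusedSectionVars false
set_option linter.style.haveILetI false

namespace Pool.Agent.Q152.FI

open Monoid

/-- The verbal subgroup: it is generated by the values of the words in `V`. -/
def verb (V : Set (FreeGroup ℕ)) (G : Type) [Group G] : Subgroup G :=
  Subgroup.closure {w | ∃ v ∈ V, ∃ φ : FreeGroup ℕ →* G, φ v = w}

theorem verb_map (V : Set (FreeGroup ℕ)) {G H : Type} [Group G] [Group H] (f : G →* H) :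
    ∀ w ∈ verb V G, f w ∈ verb V H := by
  intro w hw
  have : verb V G ≤ (verb V H).comap f := by
    refine (Subgroup.closure_le _).2 ?_
    rintro _ ⟨v, hv, φ, rfl⟩
    exact Subgroup.subset_closure ⟨v, hv, f.comp φ, rfl⟩
  exact this hw

/-- the free power of `P` -/
abbrev FP (P X : Type) [Group P] : Type := CoprodI (fun _ : X => P)

/-- the inclusion of a factor -/
abbrev ofx {P X : Type} [Group P] (x : X) : P →* FP P X :=
  CoprodI.of (M := fun _ : X => P) (i := x)

open scoped Classical in
/-- the projection of the free power to a factor -/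
noncomputable def proj (P : Type) [Group P] {X : Type} (x : X) : FP P X →* P :=
  CoprodI.lift (fun y => if y = x then MonoidHom.id P else 1)

/-- The cartesian subgroup of the free power: the kernel of the homomorphism to the direct power. -/
noncomputable def cart (P X : Type) [Group P] : Subgroup (FP P X) := ⨅ x : X, (proj P x).ker

theorem mem_cart {P X : Type} [Group P] (w : FP P X) : w ∈ cart P X ↔ ∀ x, proj P x w = 1 := by
  unfold cart
  rw [Subgroup.mem_iInf]
  rfl

/-- The kernel of the homomorphism of the free power to the verbal power. -/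
noncomputable def vker (V : Set (FreeGroup ℕ)) (P X : Type) [Group P] : Subgroup (FP P X) :=
  verb V (FP P X) ⊓ cart P X

instance (V : Set (FreeGroup ℕ)) (P X : Type) [Group P] : (vker V P X).Normal := by
  refine ⟨fun w hw g => ⟨?_, ?_⟩⟩
  · exact verb_map V (MulAut.conj g).toMonoidHom w hw.1
  · have h2 := (mem_cart w).1 hw.2
    refine (mem_cart _).2 (fun x => ?_)
    rw [map_mul, map_mul, h2 x, mul_one, map_inv, mul_inv_cancel]

/-- The verbal power of `P`: the quotient of the free power by the intersection of the verbal and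
the cartesian subgroups. -/
abbrev VP (V : Set (FreeGroup ℕ)) (P X : Type) [Group P] : Type := FP P X ⧸ vker V P X

section maps

variable {P : Type} [Group P] {X Y Z : Type}

/-- the homomorphism of free powers given by a map -/
def fm (f : X → Y) : FP P X →* FP P Y := CoprodI.lift (fun x => ofx (f x))

theorem fm_of (f : X → Y) (x : X) (p : P) :
    fm f (ofx x p : FP P X) = ofx (f x) p := by
  unfold fm
  rw [CoprodI.lift_of]

theorem fm_fm (f : X → Y) (g : Y → Z) (w : FP P X) : fm g (fm f w) = fm (g ∘ f) w := by
  have : (fm g).comp (fm f) = (fm (g ∘ f) : FP P X →* FP P Z) := by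
    refine CoprodI.ext_hom _ _ (fun x => ?_)
    ext p
    change fm g (fm f (ofx x p)) = fm (g ∘ f) (ofx x p)
    rw [fm_of, fm_of, fm_of]
  exact DFunLike.congr_fun this w

theorem fm_id (w : FP P X) : fm id w = w := by
  have : (fm id) = (MonoidHom.id (FP P X)) := by
    refine CoprodI.ext_hom _ _ (fun x => ?_)
    ext p
    exact fm_of _ _ _
  exact DFunLike.congr_fun this w

open scoped Classical in
/-- the retraction -/
noncomputable def rt (f : X → Y) : FP P Y →* FP P X :=
  CoprodI.lift (fun y => if h : ∃ x, f x = y then ofx h.choose else 1)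

theorem rt_of (f : X → Y) (hf : Function.Injective f) (x : X) (p : P) :
    rt f (ofx (f x) p : FP P Y) = ofx x p := by
  unfold rt
  rw [CoprodI.lift_of]
  have h : ∃ x', f x' = f x := ⟨x, rfl⟩
  rw [dif_pos h]
  have h1 : h.choose = x := hf h.choose_spec
  rw [h1]

theorem rt_of_not (f : X → Y) (y : Y) (hy : ¬ ∃ x, f x = y) (p : P) :
    rt f (ofx y p : FP P Y) = 1 := by
  unfold rt
  rw [CoprodI.lift_of, dif_neg hy]
  rfl

theorem rt_fm (f : X → Y) (hf : Function.Injective f) (w : FP P X) : rt f (fm f w) = w := by
  have : (rt f).comp (fm f) = (MonoidHom.id (FP P X)) := by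
    refine CoprodI.ext_hom _ _ (fun x => ?_)
    ext p
    change rt f (fm f (ofx x p : FP P X)) = ofx x p
    rw [fm_of, rt_of f hf]
  exact DFunLike.congr_fun this w

theorem proj_of (x y : X) (p : P) : proj P x (ofx y p : FP P X) =
    open scoped Classical in if y = x then p else 1 := by
  classical
  unfold proj
  rw [CoprodI.lift_of]
  by_cases h : y = x
  · rw [if_pos h, if_pos h]
    rfl
  · rw [if_neg h, if_neg h]
    rfl

theorem proj_fm (f : X → Y) (hf : Function.Injective f) (x : X) (w : FP P X) :
    proj P (f x) (fm f w) = proj P x w := by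
  classical
  have : (proj P (f x)).comp (fm f) = (proj P x) := by
    refine CoprodI.ext_hom _ _ (fun y => ?_)
    ext p
    change proj P (f x) (fm f (ofx y p : FP P X)) = proj P x (ofx y p : FP P X)
    rw [fm_of, proj_of, proj_of]
    by_cases h : y = x
    · rw [if_pos h, if_pos (by rw [h])]
    · rw [if_neg h, if_neg (fun h' => h (hf h'))]
  exact DFunLike.congr_fun this w

theorem proj_fm_not (f : X → Y) (y : Y) (hy : ¬ ∃ x, f x = y) (w : FP P X) :
    proj P y (fm f w) = 1 := by
  classical
  have : (proj P y).comp (fm f) = 1 := by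
    refine CoprodI.ext_hom _ _ (fun x => ?_)
    ext p
    change proj P y (fm f (ofx x p : FP P X)) = 1
    rw [fm_of, proj_of, if_neg (fun h => hy ⟨x, h⟩)]
  exact DFunLike.congr_fun this w

theorem proj_rt (f : X → Y) (hf : Function.Injective f) (x : X) (w : FP P Y) :
    proj P x (rt f w) = proj P (f x) w := by
  classical
  have : (proj P x).comp (rt f) = (proj P (f x)) := by
    refine CoprodI.ext_hom _ _ (fun y => ?_)
    ext p
    change proj P x (rt f (ofx y p : FP P Y)) = proj P (f x) (ofx y p : FP P Y)
    by_cases h : ∃ x', f x' = y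
    · obtain ⟨x', rfl⟩ := h
      rw [rt_of f hf, proj_of, proj_of]
      by_cases h : x' = x
      · rw [if_pos h, if_pos (by rw [h])]
      · rw [if_neg h, if_neg (fun h' => h (hf h'))]
    · rw [rt_of_not f y h, map_one, proj_of, if_neg (fun h' => h ⟨x, h'.symm⟩)]
  exact DFunLike.congr_fun this w

theorem fm_vker (V : Set (FreeGroup ℕ)) (f : X → Y) (hf : Function.Injective f) (w : FP P X)
    (hw : w ∈ vker V P X) : fm f w ∈ vker V P Y := by
  refine ⟨verb_map V (fm f) w hw.1, (mem_cart _).2 (fun y => ?_)⟩
  by_cases h : ∃ x, f x = y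
  · obtain ⟨x, rfl⟩ := h
    rw [proj_fm f hf]
    exact (mem_cart w).1 hw.2 x
  · exact proj_fm_not f y h w

theorem rt_vker (V : Set (FreeGroup ℕ)) (f : X → Y) (hf : Function.Injective f) (w : FP P Y)
    (hw : w ∈ vker V P Y) : rt f w ∈ vker V P X := by
  refine ⟨verb_map V (rt f) w hw.1, (mem_cart _).2 (fun x => ?_)⟩
  rw [proj_rt f hf]
  exact (mem_cart w).1 hw.2 (f x)

theorem exists_support (w : FP P X) : ∃ (S : Finset X) (u : FP P S), fm (Subtype.val) u = w := by
  classical
  have hmono : ∀ {S T : Finset X} (h : S ⊆ T) (u : FP P S), ∃ u' : FP P T,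
      fm (Subtype.val) u' = fm (Subtype.val) u := by
    intro S T h u
    exact ⟨fm (fun x => ⟨x.1, h x.2⟩) u, by rw [fm_fm]; rfl⟩
  induction w using CoprodI.induction_on with
  | one => exact ⟨∅, 1, map_one _⟩
  | of x p =>
    refine ⟨{x}, ofx (⟨x, Finset.mem_singleton_self x⟩ : ({x} : Finset X)) p, ?_⟩
    rw [fm_of]
  | mul a b ha hb =>
    obtain ⟨S, u, hu⟩ := ha
    obtain ⟨T, v, hv⟩ := hb
    obtain ⟨u', hu'⟩ := hmono (Finset.subset_union_left (s₁ := S) (s₂ := T)) u
    obtain ⟨v', hv'⟩ := hmono (Finset.subset_union_right (s₁ := S) (s₂ := T)) v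
    exact ⟨S ∪ T, u' * v', by rw [map_mul, hu', hv', hu, hv]⟩

/-- the homomorphism of the verbal powers given by an injection -/
noncomputable def vm (V : Set (FreeGroup ℕ)) (f : X → Y) (hf : Function.Injective f) : VP V P X →* VP V P Y :=
  QuotientGroup.map (vker V P X) (vker V P Y) (fm f)
    (show vker V P X ≤ (vker V P Y).comap (fm f) from fun w hw => fm_vker V f hf w hw)

theorem vm_mk (V : Set (FreeGroup ℕ)) (f : X → Y) (hf : Function.Injective f) (w : FP P X) :
    vm V f hf (w : VP V P X) = ((fm f w : FP P Y) : VP V P Y) := rfl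

end maps

/-- **The verbal powers of a group form an FI-group.** -/
noncomputable def verbal (V : Set (FreeGroup ℕ)) (P : Type) [Group P] : FIGroup where
  obj X := VP V P X
  grp X := inferInstance
  map f := vm V f f.injective
  map_id X x := by
    induction x using QuotientGroup.induction_on with
    | H w =>
      rw [vm_mk]
      exact congrArg _ (fm_id w)
  map_comp f g x := by
    induction x using QuotientGroup.induction_on with
    | H w =>
      rw [vm_mk, vm_mk, vm_mk, fm_fm]
      rfl
  gen X x := by
    induction x using QuotientGroup.induction_on with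
    | H w =>
      obtain ⟨S, u, hu⟩ := exists_support w
      refine ⟨S, (u : VP V P S), ?_⟩
      rw [vm_mk]
      exact congrArg _ hu
  ker X S y hy := by
    refine ⟨S, Finset.Subset.refl S, ?_⟩
    induction y using QuotientGroup.induction_on with
    | H w =>
      rw [vm_mk, QuotientGroup.eq_one_iff] at hy
      have h1 : (w : VP V P S) = 1 := by
        rw [QuotientGroup.eq_one_iff]
        have := rt_vker V (emb S) (emb S).injective _ hy
        rwa [rt_fm _ (emb S).injective] at this
      rw [h1, map_one]

end Pool.Agent.Q152.FI
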